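import Pool.Agent.Helper69.DC.Goals2

/-!
Packet DC-TQ: the differential equation along the hyperplane `X = 0`.
-/

namespace Pool.Agent.Helper79.DC

open MvPolynomial Finset ComplexConjugate Pool.Agent.Helper69.DC

section Pairing

variable {m : ℕ} {R : Type*} [CommRing R]

theorem pr_eq_sum (P G : MvPolynomial (Fin m) R) {s : Finset (Fin m →₀ ℕ)} (hs : P.support ⊆ s) :
    pr P G = ∑ α ∈ s, P.coeff α * ((∏ i, (α i).factorial : ℕ) : R) * G.coeff α := by
  unfold pr
  refine Finset.sum_subset hs fun α _ hα => ?_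
  rw [notMem_support_iff.1 hα, zero_mul, zero_mul]

theorem pr_add_left (P Q G : MvPolynomial (Fin m) R) : pr (P + Q) G = pr P G + pr Q G := by
  classical
  have h1 : P.support ⊆ P.support ∪ Q.support ∪ (P + Q).support := fun x hx => by simp_all
  have h2 : Q.support ⊆ P.support ∪ Q.support ∪ (P + Q).support := fun x hx => by simp_all
  have h3 : (P + Q).support ⊆ P.support ∪ Q.support ∪ (P + Q).support := fun x hx => by
    rw [Finset.mem_union]; exact Or.inr hx
  rw [pr_eq_sum P G h1, pr_eq_sum Q G h2, pr_eq_sum (P + Q) G h3, ← Finset.sum_add_distrib]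
  refine Finset.sum_congr rfl fun α _ => ?_
  rw [coeff_add]; ring

theorem pr_zero_left (G : MvPolynomial (Fin m) R) : pr 0 G = 0 := by
  unfold pr; simp

theorem pr_add_right (P G G' : MvPolynomial (Fin m) R) : pr P (G + G') = pr P G + pr P G' := by
  unfold pr
  rw [← Finset.sum_add_distrib]
  refine Finset.sum_congr rfl fun α _ => ?_
  rw [coeff_add]; ring

theorem pr_zero_right (P : MvPolynomial (Fin m) R) : pr P 0 = 0 := by
  unfold pr; simp

theorem pr_C_mul_right (P G : MvPolynomial (Fin m) R) (c : R) :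
    pr P (C c * G) = c * pr P G := by
  unfold pr
  rw [Finset.mul_sum]
  refine Finset.sum_congr rfl fun α _ => ?_
  rw [coeff_C_mul]; ring

theorem pr_C_mul_left (P G : MvPolynomial (Fin m) R) (c : R) :
    pr (C c * P) G = c * pr P G := by
  classical
  have h1 : P.support ⊆ P.support ∪ (C c * P).support := Finset.subset_union_left
  have h2 : (C c * P).support ⊆ P.support ∪ (C c * P).support := Finset.subset_union_right
  rw [pr_eq_sum P G h1, pr_eq_sum _ G h2, Finset.mul_sum]
  refine Finset.sum_congr rfl fun α _ => ?_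
  rw [coeff_C_mul]; ring

theorem pr_sum_left {ι : Type*} (s : Finset ι) (P : ι → MvPolynomial (Fin m) R)
    (G : MvPolynomial (Fin m) R) : pr (∑ i ∈ s, P i) G = ∑ i ∈ s, pr (P i) G := by
  classical
  induction s using Finset.induction_on with
  | empty => simp [pr_zero_left]
  | insert a s ha ih => rw [Finset.sum_insert ha, Finset.sum_insert ha, pr_add_left, ih]

theorem pr_sum_right {ι : Type*} (s : Finset ι) (P : MvPolynomial (Fin m) R)
    (G : ι → MvPolynomial (Fin m) R) : pr P (∑ i ∈ s, G i) = ∑ i ∈ s, pr P (G i) := by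
  classical
  induction s using Finset.induction_on with
  | empty => simp [pr_zero_right]
  | insert a s ha ih => rw [Finset.sum_insert ha, Finset.sum_insert ha, pr_add_right, ih]

theorem pr_monomial (α : Fin m →₀ ℕ) (a : R) (G : MvPolynomial (Fin m) R) :
    pr (monomial α a) G = a * ((∏ i, (α i).factorial : ℕ) : R) * G.coeff α := by
  classical
  rw [pr_eq_sum (monomial α a) G (s := {α}) (by
    intro x hx
    exact support_monomial_subset hx)]
  simp

theorem pr_C (a : R) (G : MvPolynomial (Fin m) R) : pr (C a) G = a * coeff 0 G := by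
  have h := pr_monomial (m := m) 0 a G
  simpa using h

theorem pr_X_mul (j : Fin m) (P G : MvPolynomial (Fin m) R) :
    pr (X j * P) G = pr P (pderiv j G) := by
  classical
  induction P using MvPolynomial.induction_on' with
  | monomial α a =>
    have h1 : (X j * monomial α a : MvPolynomial (Fin m) R) =
        monomial (α + Finsupp.single j 1) a := by
      rw [add_comm, X, monomial_mul, one_mul]
    rw [h1, pr_monomial, pr_monomial, coeff_pderiv]
    have h2 : (∏ i, ((α + Finsupp.single j 1 : Fin m →₀ ℕ) i).factorial : ℕ) =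
        (α j + 1) * ∏ i, (α i).factorial := by
      rw [← Finset.mul_prod_erase univ (fun i => ((α + Finsupp.single j 1 : Fin m →₀ ℕ) i).factorial)
        (Finset.mem_univ j), ← Finset.mul_prod_erase univ (fun i => (α i).factorial)
        (Finset.mem_univ j)]
      have h3 : ∏ i ∈ univ.erase j, ((α + Finsupp.single j 1 : Fin m →₀ ℕ) i).factorial =
          ∏ i ∈ univ.erase j, (α i).factorial := by
        refine Finset.prod_congr rfl fun i hi => ?_
        rw [Finset.mem_erase] at hi
        rw [Finsupp.add_apply, Finsupp.single_eq_of_ne hi.1, add_zero]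
      rw [h3, Finsupp.add_apply, Finsupp.single_eq_same, Nat.factorial_succ, mul_assoc]
    rw [h2]
    push_cast
    ring
  | add P Q hP hQ => rw [mul_add, pr_add_left, pr_add_left, hP, hQ]

/-- The linear form `ξ`. -/
noncomputable def lf (w : Fin m → R) : MvPolynomial (Fin m) R := ∑ i, C (w i) * X i

theorem constantCoeff_lf (w : Fin m → R) : constantCoeff (lf w) = 0 := by
  unfold lf
  rw [map_sum]
  refine Finset.sum_eq_zero fun i _ => ?_
  rw [map_mul, constantCoeff_X, mul_zero]

theorem pderiv_lf (w : Fin m → R) (j : Fin m) : pderiv j (lf w) = C (w j) := by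
  classical
  unfold lf
  rw [map_sum, Finset.sum_eq_single j]
  · rw [pderiv_C_mul, pderiv_X_self, mul_one]
  · intro i _ hi
    rw [pderiv_C_mul, pderiv_X_of_ne hi, mul_zero]
  · intro h; exact absurd (Finset.mem_univ j) h

theorem pderiv_sq (w : Fin m → R) (B : MvPolynomial (Fin m) R) (j : Fin m) :
    pderiv j (lf w ^ 2 * B) = 2 * C (w j) * (lf w * B) + lf w ^ 2 * pderiv j B := by
  rw [pderiv_mul, pderiv_pow, pderiv_lf]
  push_cast
  ring

theorem exists_single {α : Fin m →₀ ℕ} {n : ℕ} (h : Finsupp.degree α = n + 1) :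
    ∃ (i : Fin m) (β : Fin m →₀ ℕ), α = Finsupp.single i 1 + β ∧ Finsupp.degree β = n := by
  classical
  have h0 : α ≠ 0 := by
    rintro rfl
    simp at h
  obtain ⟨i, hi⟩ := Finsupp.ne_iff.1 h0
  have hle : Finsupp.single i 1 ≤ α := by
    rw [Finsupp.single_le_iff]
    exact Nat.one_le_iff_ne_zero.2 hi
  refine ⟨i, α - Finsupp.single i 1, (add_tsub_cancel_of_le hle).symm, ?_⟩
  have h1 : Finsupp.degree α = 1 + Finsupp.degree (α - Finsupp.single i 1) := by
    conv_lhs => rw [← add_tsub_cancel_of_le hle]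
    rw [map_add, Finsupp.degree_single]
  omega

/-- The value of `pr P (ξ² B)` for a monomial `P` of degree at most `2`. -/
theorem pr_sq_monomial (w : Fin m → R) (B : MvPolynomial (Fin m) R) (α : Fin m →₀ ℕ) (a : R)
    (hα : Finsupp.degree α ≤ 2) :
    pr (monomial α a) (lf w ^ 2 * B) =
      2 * coeff 0 B * (if Finsupp.degree α = 2 then eval w (monomial α a) else 0) := by
  have c0 : ∀ G : MvPolynomial (Fin m) R, coeff 0 G = constantCoeff G := fun _ => rfl
  have hX : ∀ (i : Fin m) (β : Fin m →₀ ℕ) (a : R),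
      (monomial (Finsupp.single i 1 + β) a : MvPolynomial (Fin m) R) = X i * monomial β a := by
    intro i β a
    rw [X, monomial_mul, one_mul]
  have hcl := constantCoeff_lf w
  have h2C : constantCoeff (2 : MvPolynomial (Fin m) R) = 2 := map_ofNat _ 2
  obtain h | h | h : Finsupp.degree α = 0 ∨ Finsupp.degree α = 1 ∨ Finsupp.degree α = 2 := by
    omega
  · rw [if_neg (by omega)]
    have h1 : α = 0 := (Finsupp.degree_eq_zero_iff α).1 h
    subst h1
    change pr (C a) _ = _
    rw [pr_C, c0, map_mul, map_pow, hcl]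
    ring
  · rw [if_neg (by omega)]
    obtain ⟨i, β, rfl, hβ⟩ := exists_single (n := 0) h
    have h1 : β = 0 := (Finsupp.degree_eq_zero_iff β).1 hβ
    subst h1
    rw [hX, pr_X_mul]
    change pr (C a) _ = _
    rw [pr_C, c0, pderiv_sq]
    simp only [map_add, map_mul, map_pow, hcl]
    ring
  · rw [if_pos h]
    obtain ⟨i, β, rfl, hβ⟩ := exists_single (n := 1) h
    obtain ⟨j, γ, rfl, hγ⟩ := exists_single (n := 0) hβ
    have h1 : γ = 0 := (Finsupp.degree_eq_zero_iff γ).1 hγ
    subst h1
    rw [hX, hX, pr_X_mul, pr_X_mul]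
    change pr (C a) _ = _ * eval w (X i * (X j * C a))
    have h3 : pderiv j (pderiv i (lf w ^ 2 * B)) =
        2 * C (w i) * (C (w j) * B + lf w * pderiv j B) +
          (2 * C (w j) * (lf w * pderiv i B) + lf w ^ 2 * pderiv j (pderiv i B)) := by
      rw [pderiv_sq, map_add, pderiv_sq]
      congr 1
      have h4 : (2 * C (w i) * (lf w * B) : MvPolynomial (Fin m) R) =
          C (2 * w i) * (lf w * B) := by
        rw [C_mul]
        congr 2
      rw [h4, pderiv_C_mul, pderiv_mul, pderiv_lf, C_mul]
      congr 2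
    rw [pr_C, c0, h3]
    simp only [map_add, map_mul, map_pow, hcl, h2C, constantCoeff_C, eval_X, eval_C, c0]
    ring

theorem pr_sq (w : Fin m → R) (B P : MvPolynomial (Fin m) R) (hP : P.totalDegree ≤ 2) :
    pr P (lf w ^ 2 * B) = 2 * coeff 0 B * eval w (homogeneousComponent 2 P) := by
  classical
  conv_lhs => rw [P.as_sum]
  rw [pr_sum_left, homogeneousComponent_apply, map_sum, Finset.sum_filter, Finset.mul_sum]
  refine Finset.sum_congr rfl fun α hα => ?_
  have h1 : Finsupp.degree α ≤ P.totalDegree := le_totalDegree hα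
  rw [pr_sq_monomial w B α _ (h1.trans hP)]

end Pairing

theorem tay1_C {m : ℕ} (c : ℂ) : tay1 (C c : MvPolynomial (Fin m) ℂ) = C (C c) := by
  unfold tay1
  rw [aeval_C]
  rfl

theorem tay1_X {m : ℕ} (i : Fin m) :
    tay1 (X i : MvPolynomial (Fin m) ℂ) = C (X i) + X i := by
  unfold tay1
  rw [aeval_X]

theorem tay1_xp {m : ℕ} (β v : Fin m → ℂ) :
    tay1 (xp β v) = C (xp β v) + lf (fun i => C (conj (v i))) := by
  unfold xp lf
  rw [map_sum, map_sum, ← Finset.sum_add_distrib]
  refine Finset.sum_congr rfl fun i _ => ?_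
  rw [map_mul, map_sub, tay1_C, tay1_C, tay1_X, map_mul, map_sub]
  ring

/-- The constant coefficient of the Taylor expansion. -/
theorem coeff_tay1 {m : ℕ} (b : MvPolynomial (Fin m) ℂ) : constantCoeff (tay1 b) = b := by
  induction b using MvPolynomial.induction_on with
  | C a => rw [tay1_C, constantCoeff_C]
  | add p q hp hq => rw [map_add, map_add, hp, hq]
  | mul_X p i hp => rw [map_mul, map_mul, hp, tay1_X, map_add, constantCoeff_C, constantCoeff_X,
      add_zero]

/-- The derivative of the Taylor expansion. -/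
theorem coeff_pderiv_tay1 {m : ℕ} (j : Fin m) (b : MvPolynomial (Fin m) ℂ) :
    constantCoeff (pderiv j (tay1 b)) = pderiv j b := by
  classical
  induction b using MvPolynomial.induction_on with
  | C a => rw [tay1_C, pderiv_C, pderiv_C, map_zero]
  | add p q hp hq => rw [map_add, map_add, map_add, map_add, hp, hq]
  | mul_X p i hp =>
    have h1 : constantCoeff (pderiv j (X i : MvPolynomial (Fin m) (MvPolynomial (Fin m) ℂ))) =
        (pderiv j (X i : MvPolynomial (Fin m) ℂ)) := by
      by_cases h : i = j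
      · subst h
        rw [pderiv_X_self, pderiv_X_self, map_one]
      · rw [pderiv_X_of_ne h, pderiv_X_of_ne h, map_zero]
    rw [map_mul, pderiv_mul, pderiv_mul, map_add, map_mul, map_mul, hp, coeff_tay1, tay1_X,
      map_add, map_add, pderiv_C, map_zero, zero_add, h1, coeff_tay1]

theorem h_tq : H_TQ := by
  classical
  intro m β v e q P₂ b he hq hP hpr
  set w : Fin m → MvPolynomial (Fin m) ℂ := fun i => C (conj (v i)) with hw
  have c0 : ∀ G : MvPolynomial (Fin m) (MvPolynomial (Fin m) ℂ),
      coeff 0 G = constantCoeff G := fun _ => rfl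
  -- the first part
  have h1 : pr P₂ (lf w ^ 2 * tay1 b) =
      2 * b * ev2 (fun i => conj (v i)) (homogeneousComponent 2 P₂) := by
    rw [pr_sq w _ _ hP, c0, coeff_tay1]
    rfl
  -- the second part
  set DB : MvPolynomial (Fin m) (MvPolynomial (Fin m) ℂ) :=
    ∑ j, C (C (e j)) * pderiv j (tay1 b) with hDB
  have h2 : pr (eC e * q) (lf w ^ 2 * tay1 b) = pr q (lf w ^ 2 * DB) := by
    have h3 : eC e * q = ∑ j, C (C (e j)) * (X j * q) := by
      unfold eC
      rw [Finset.sum_mul]
      refine Finset.sum_congr rfl fun j _ => ?_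
      ring
    have h4 : lf w ^ 2 * DB = ∑ j, C (C (e j)) * pderiv j (lf w ^ 2 * tay1 b) := by
      have h5 : ∑ j, C (C (e j)) * (2 * C (w j) * (lf w * tay1 b)) = 0 := by
        have h6 : ∀ j, C (C (e j)) * (2 * C (w j) * (lf w * tay1 b)) =
            C (C (e j * conj (v j))) * (2 * (lf w * tay1 b)) := by
          intro j
          rw [hw, C_mul, C_mul]
          ring
        simp only [h6]
        rw [← Finset.sum_mul, ← map_sum, ← map_sum, he, map_zero, map_zero, zero_mul]
      simp only [pderiv_sq, mul_add, Finset.sum_add_distrib]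
      rw [h5, zero_add, hDB, Finset.mul_sum]
      refine Finset.sum_congr rfl fun j _ => ?_
      ring
    rw [h3, h4, pr_sum_left, pr_sum_right]
    refine Finset.sum_congr rfl fun j _ => ?_
    rw [pr_C_mul_left, pr_C_mul_right, pr_X_mul]
  have h7 : constantCoeff DB = ∑ j, C (e j) * pderiv j b := by
    rw [hDB, map_sum]
    refine Finset.sum_congr rfl fun j _ => ?_
    rw [map_mul, constantCoeff_C, coeff_pderiv_tay1]
  have h8 : pr (eC e * q) (lf w ^ 2 * tay1 b) =
      2 * (∑ j, C (e j) * pderiv j b) * ev2 (fun i => conj (v i)) q := by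
    rw [h2, pr_sq w _ _ hq.totalDegree_le, c0, h7, homogeneousComponent_of_mem hq, if_pos rfl]
    rfl
  -- modulo `X`
  have h9 : tay1 (xp β v ^ 2 * b) = C (xp β v) * ((C (xp β v) + 2 * lf w) * tay1 b) +
      lf w ^ 2 * tay1 b := by
    rw [map_mul, map_pow, tay1_xp]
    ring
  rw [h9, pr_add_right, pr_C_mul_right, pr_add_left, pr_add_left, h1, h8] at hpr
  have h10 : xp β v ∣ C (2 : ℂ) * (ev2 (fun i => conj (v i)) q * (∑ j, C (e j) * pderiv j b) +
      ev2 (fun i => conj (v i)) (homogeneousComponent 2 P₂) * b) := by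
    have h11 : (C (2 : ℂ) : MvPolynomial (Fin m) ℂ) = 2 := map_ofNat _ 2
    rw [h11]
    refine ⟨-(pr (eC e * q) ((C (xp β v) + 2 * lf w) * tay1 b) +
      pr P₂ ((C (xp β v) + 2 * lf w) * tay1 b)), ?_⟩
    linear_combination hpr
  have h12 : IsUnit (C (2 : ℂ) : MvPolynomial (Fin m) ℂ) :=
    (IsUnit.mk0 (2 : ℂ) (by norm_num)).map C
  exact (h12.dvd_mul_left).1 h10

end Pool.Agent.Helper79.DC
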